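import Pool.Agent.V5helper2.NR.Stm

/-!
# Project NR, job CMP: compact functions have only countably many frequencies
(copy of `freq_sub` of `V5helper2/CF/Loc.lean` with local averages)
-/

set_option autoImplicit false
open Finset Filter Topology MeasureTheory AddCircle
open scoped ComplexConjugate

namespace V5helper1.NR

open Pool.Agent.Helper498.NCR Pool.Agent.V5helper2.CF Pool.Agent.V5helper2.NR

/-- averages of local averages of a bounded nonnegative sequence -/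
theorem avg_avg_le (ρ : ℕ → ℝ) (C : ℝ) (h0 : ∀ n, 0 ≤ ρ n) (hC : ∀ n, ρ n ≤ C) (H N : ℕ)
    (hH : 1 ≤ H) :
    (N : ℝ)⁻¹ * ∑ n ∈ range N, (H : ℝ)⁻¹ * ∑ h ∈ range H, ρ (n + h) ≤
      (N : ℝ)⁻¹ * ∑ n ∈ range N, ρ n + (H : ℝ) * C * (N : ℝ)⁻¹ := by
  have hC0 : 0 ≤ C := (h0 0).trans (hC 0)
  have hHp : (0 : ℝ) < H := by exact_mod_cast hH
  have e1 : ∀ h ∈ range H, ∑ n ∈ range N, ρ (n + h) ≤ ∑ n ∈ range N, ρ n + (H : ℝ) * C := by
    intro h hh
    have hhH : h ≤ H := (mem_range.1 hh).le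
    have s1 : ∑ n ∈ range N, ρ (n + h) ≤ ∑ n ∈ range (N + h), ρ n := by
      have : ∑ n ∈ range (h + N), ρ n = ∑ n ∈ range h, ρ n + ∑ n ∈ range N, ρ (h + n) :=
        Finset.sum_range_add _ _ _
      rw [add_comm N h, this]
      have h2 : 0 ≤ ∑ n ∈ range h, ρ n := Finset.sum_nonneg fun n _ => h0 n
      have h3 : ∑ n ∈ range N, ρ (n + h) = ∑ n ∈ range N, ρ (h + n) :=
        Finset.sum_congr rfl fun n _ => by rw [add_comm]
      rw [h3]; linarith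
    have s2 : ∑ n ∈ range (N + h), ρ n = ∑ n ∈ range N, ρ n + ∑ n ∈ range h, ρ (N + n) :=
      Finset.sum_range_add _ _ _
    have s3 : ∑ n ∈ range h, ρ (N + n) ≤ (H : ℝ) * C := by
      calc ∑ n ∈ range h, ρ (N + n) ≤ ∑ n ∈ range h, C := Finset.sum_le_sum fun n _ => hC _
        _ = (h : ℝ) * C := by simp
        _ ≤ (H : ℝ) * C := mul_le_mul_of_nonneg_right (by exact_mod_cast hhH) hC0
    linarith
  have e2 : ∑ n ∈ range N, (H : ℝ)⁻¹ * ∑ h ∈ range H, ρ (n + h) =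
      (H : ℝ)⁻¹ * ∑ h ∈ range H, ∑ n ∈ range N, ρ (n + h) := by
    rw [← Finset.mul_sum, Finset.sum_comm]
  have e3 : (H : ℝ)⁻¹ * ∑ h ∈ range H, ∑ n ∈ range N, ρ (n + h) ≤
      ∑ n ∈ range N, ρ n + (H : ℝ) * C := by
    rw [inv_mul_le_iff₀ hHp]
    refine (Finset.sum_le_sum e1).trans ?_
    rw [Finset.sum_const, card_range, nsmul_eq_mul]
  rw [e2]
  have hN : (0 : ℝ) ≤ (N : ℝ)⁻¹ := by positivity
  calc (N : ℝ)⁻¹ * ((H : ℝ)⁻¹ * ∑ h ∈ range H, ∑ n ∈ range N, ρ (n + h))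
      ≤ (N : ℝ)⁻¹ * (∑ n ∈ range N, ρ n + (H : ℝ) * C) := mul_le_mul_of_nonneg_left e3 hN
    _ = _ := by ring

theorem t_CMP : S_CMP := by
  intro Ω _ μ _ T hT a ha ha1 haE
  set U := koop hT with hU
  set y := (memLp_bdd (μ := μ) ha ha1).toLp a with hy
  choose z hz1 hz2 using fun j : ℕ => approx_of_closure U y haE ((1 / 2 : ℝ) ^ j) (by positivity)
  choose ι inst e l hl he hz using hz1
  set r : ℕ → Lp ℂ 2 μ := fun j => y - z j with hr
  set R : ℕ → Ω → ℂ := fun j x => ((‖r j x‖ : ℝ) : ℂ) with hR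
  have hRm : ∀ j, MemLp (R j) 2 μ := fun j => ((Lp.memLp (r j)).norm).ofReal
  have hRn : ∀ j, ‖(hRm j).toLp (R j)‖ ≤ (1 / 2 : ℝ) ^ j := by
    intro j
    rw [Lp.norm_toLp]
    have e1 : eLpNorm (R j) 2 μ = eLpNorm (r j) 2 μ :=
      eLpNorm_congr_norm_ae (Eventually.of_forall fun x => by simp [hR])
    rw [e1, ← Lp.norm_def]
    exact hz2 j
  choose p hp hlim using fun j => mean_erg U ((hRm j).toLp (R j))
  have hlim' : ∀ j, Tendsto (fun N => tavg U 1 N ((hRm j).toLp (R j))) atTop (𝓝 (p j)) := by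
    intro j
    refine (hlim j).congr fun J => ?_
    rw [tavg_one]
  have hpn : ∀ j, ‖p j‖ ≤ (1 / 2 : ℝ) ^ j := fun j =>
    le_of_tendsto (hlim' j).norm (Eventually.of_forall fun N => (norm_tavg_le U _ N).trans (hRn j))
  have hp0 := ae_tendsto_zero_of_small p hpn
  refine ⟨⋃ j, Set.range (fun i : ι j => (l j i)⁻¹), ?_, fun j N =>
    tavg U 1 N ((hRm j).toLp (R j)) - p j, fun j => ?_, ?_⟩
  · refine Set.countable_iUnion fun j => ?_
    exact Set.countable_range _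
  · simpa using (hlim' j).sub_const (p j)
  -- a.e. decomposition
  have hdec : ∀ᵐ x ∂μ, ∀ j n : ℕ, a (T^[n] x) =
      (∑ i, l j i ^ n * e j i x) + r j (T^[n] x) := by
    rw [ae_all_iff]; intro j
    rw [ae_all_iff]; intro n
    have h1 : ∀ᵐ x ∂μ, a x = ∑ i, e j i x + r j x := by
      have e1 := (memLp_bdd (μ := μ) ha ha1).coeFn_toLp
      have e2 := Lp.coeFn_sub y (z j)
      have e3 := Lp.coeFn_finsetSum (Finset.univ) (e j)
      rw [← hz j] at e3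
      filter_upwards [e1, e2, e3] with x g1 g2 g3
      rw [hr, g2, Pi.sub_apply, g3, Finset.sum_apply, hy, g1]; ring
    have h2 : ∀ᵐ x ∂μ, a (T^[n] x) = ∑ i, e j i (T^[n] x) + r j (T^[n] x) :=
      (hT.iterate n).quasiMeasurePreserving.ae h1
    have h3 : ∀ᵐ x ∂μ, ∀ i, e j i (T^[n] x) = l j i ^ n * e j i x := by
      rw [ae_all_iff]; intro i
      have g1 := koop_pow_coe hT n (e j i)
      rw [← hU, eig_pow U (he j i)] at g1
      filter_upwards [g1, Lp.coeFn_smul (l j i ^ n) (e j i)] with x q1 q2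
      rw [← q1, q2, Pi.smul_apply, smul_eq_mul]
    filter_upwards [h2, h3] with x g2 g3
    rw [g2]
    congr 1
    exact Finset.sum_congr rfl fun i _ => g3 i
  have hcoe : ∀ᵐ x ∂μ, ∀ j N : ℕ, (tavg U 1 N ((hRm j).toLp (R j)) - p j : Lp ℂ 2 μ) x =
      (N : ℂ)⁻¹ * ∑ n ∈ range N, ((‖r j (T^[n] x)‖ : ℝ) : ℂ) - p j x := by
    rw [ae_all_iff]; intro j
    rw [ae_all_iff]; intro N
    filter_upwards [Lp.coeFn_sub (tavg U 1 N ((hRm j).toLp (R j))) (p j),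
      avg_coe hT (hRm j) 1 N] with x h1 h2
    rw [h1, Pi.sub_apply]
    congr 1
    refine h2.trans ?_
    congr 1
    refine Finset.sum_congr rfl fun n _ => ?_
    rw [one_pow, one_mul]
  filter_upwards [hdec, hcoe, hp0] with x h1 h2 h3 N hN hK z hz hzΛ ε hε
  have hzl : ∀ j i, z * l j i ≠ 1 := by
    intro j i h
    apply hzΛ
    refine Set.mem_iUnion.2 ⟨j, i, ?_⟩
    have : l j i ≠ 0 := fun h0 => by have := hl j i; rw [h0] at this; simp at this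
    field_simp
    rw [← h]; ring
  have h5 : ∀ᶠ j in atTop, ‖p j x‖ < ε / 2 := by
    have := h3.norm
    rw [norm_zero] at this
    exact this.eventually (gt_mem_nhds (by positivity))
  obtain ⟨j, hj⟩ := h5.exists
  -- bound of the remainder
  have hrC : ∀ n, ‖r j (T^[n] x)‖ ≤ 1 + ∑ m, ‖e j m x‖ := by
    intro n
    have e1 : r j (T^[n] x) = a (T^[n] x) - ∑ m, l j m ^ n * e j m x := by
      rw [h1 j n]; ring
    rw [e1]
    refine (norm_sub_le _ _).trans (add_le_add (ha1 _) ?_)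
    refine (norm_sum_le _ _).trans (Finset.sum_le_sum fun m _ => ?_)
    rw [norm_mul, norm_pow, hl, one_pow, one_mul]
  -- the characters
  have hH1 : Tendsto (fun H : ℕ => ∑ m, ‖((H : ℕ) : ℂ)⁻¹ * ∑ h ∈ range H, (z * l j m) ^ h‖ *
      ‖e j m x‖) atTop (𝓝 0) := by
    have h6 : Tendsto (fun H : ℕ => ∑ m, ‖((H : ℕ) : ℂ)⁻¹ * ∑ h ∈ range H, (z * l j m) ^ h‖ *
      ‖e j m x‖) atTop (𝓝 (∑ m : ι j, (0 : ℝ))) := by
      refine tendsto_finsetSum _ fun m _ => ?_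
      have c1 := char_avg (z * l j m) (by rw [norm_mul, hz, hl, one_mul])
      rw [if_neg (hzl j m)] at c1
      have c2 := (c1.norm).mul_const ‖e j m x‖
      simpa using c2
    simpa using h6
  have h7 : ∀ᶠ H : ℕ in atTop, ∑ m, ‖((H : ℕ) : ℂ)⁻¹ * ∑ h ∈ range H, (z * l j m) ^ h‖ *
      ‖e j m x‖ < ε / 2 := hH1.eventually (gt_mem_nhds (by positivity))
  obtain ⟨H₁, hH₁⟩ := eventually_atTop.1 h7
  refine ⟨max H₁ 1, fun H hH => ?_⟩
  have hHa : H₁ ≤ H := (le_max_left _ _).trans hH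
  have hHb : 1 ≤ H := (le_max_right _ _).trans hH
  have hHp : (0 : ℝ) < H := by exact_mod_cast hHb
  have hS := (hH₁ H hHa).le
  set S := ∑ m, ‖((H : ℕ) : ℂ)⁻¹ * ∑ h ∈ range H, (z * l j m) ^ h‖ * ‖e j m x‖ with hSdef
  have hS0 : 0 ≤ S := Finset.sum_nonneg fun m _ => by positivity
  -- pointwise bound
  have hw1 : ∀ n, ‖(H : ℂ)⁻¹ * ∑ h ∈ range H, z ^ h * a (T^[n + h] x)‖ ≤ 1 := by
    intro n
    rw [norm_mul, norm_inv, Complex.norm_natCast, inv_mul_le_iff₀ hHp]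
    refine (norm_sum_le _ _).trans ?_
    calc ∑ h ∈ range H, ‖z ^ h * a (T^[n + h] x)‖ ≤ ∑ h ∈ range H, (1 : ℝ) := by
          refine Finset.sum_le_sum fun h _ => ?_
          rw [norm_mul, norm_pow, hz, one_pow, one_mul]; exact ha1 _
      _ = (H : ℝ) * 1 := by simp
  have hw2 : ∀ n, ‖(H : ℂ)⁻¹ * ∑ h ∈ range H, z ^ h * a (T^[n + h] x)‖ ≤
      S + (H : ℝ)⁻¹ * ∑ h ∈ range H, ‖r j (T^[n + h] x)‖ := by
    intro n
    have e1 : (H : ℂ)⁻¹ * ∑ h ∈ range H, z ^ h * a (T^[n + h] x) =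
        (∑ m, ((H : ℂ)⁻¹ * ∑ h ∈ range H, (z * l j m) ^ h) * (l j m ^ n * e j m x)) +
        (H : ℂ)⁻¹ * ∑ h ∈ range H, z ^ h * r j (T^[n + h] x) := by
      have e2 : ∀ h ∈ range H, z ^ h * a (T^[n + h] x) =
          (∑ m, (z * l j m) ^ h * (l j m ^ n * e j m x)) + z ^ h * r j (T^[n + h] x) := by
        intro h _
        rw [h1 j (n + h), mul_add, Finset.mul_sum]
        congr 1
        refine Finset.sum_congr rfl fun m _ => ?_
        rw [mul_pow, pow_add]; ring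
      rw [Finset.sum_congr rfl e2, Finset.sum_add_distrib, mul_add, Finset.sum_comm,
        Finset.mul_sum]
      congr 1
      refine Finset.sum_congr rfl fun m _ => ?_
      rw [← Finset.sum_mul]; ring
    rw [e1]
    refine (norm_add_le _ _).trans (add_le_add ?_ ?_)
    · refine (norm_sum_le _ _).trans (Finset.sum_le_sum fun m _ => ?_)
      rw [norm_mul, norm_mul (l j m ^ n), norm_pow, hl, one_pow, one_mul]
    · rw [norm_mul, norm_inv, Complex.norm_natCast]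
      refine mul_le_mul_of_nonneg_left ?_ (by positivity)
      refine (norm_sum_le _ _).trans (Finset.sum_le_sum fun h _ => ?_)
      rw [norm_mul, norm_pow, hz, one_pow, one_mul]
  have hw3 : ∀ n, ‖(H : ℂ)⁻¹ * ∑ h ∈ range H, z ^ h * a (T^[n + h] x)‖ ^ 2 ≤
      S + (H : ℝ)⁻¹ * ∑ h ∈ range H, ‖r j (T^[n + h] x)‖ := by
    intro n
    refine le_trans ?_ (hw2 n)
    have := hw1 n
    have h0 := norm_nonneg ((H : ℂ)⁻¹ * ∑ h ∈ range H, z ^ h * a (T^[n + h] x))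
    nlinarith
  -- the averages
  have hb : ∀ i, ((N i : ℕ) : ℝ)⁻¹ * ∑ n ∈ range (N i),
      ‖(H : ℂ)⁻¹ * ∑ h ∈ range H, z ^ h * a (T^[n + h] x)‖ ^ 2 ≤
      S + (((N i : ℕ) : ℝ)⁻¹ * ∑ n ∈ range (N i), ‖r j (T^[n] x)‖ +
        (H : ℝ) * (1 + ∑ m, ‖e j m x‖) * ((N i : ℕ) : ℝ)⁻¹) := by
    intro i
    have hNi : (0 : ℝ) ≤ ((N i : ℕ) : ℝ)⁻¹ := by positivity
    have g1 : ((N i : ℕ) : ℝ)⁻¹ * ∑ n ∈ range (N i),
        ‖(H : ℂ)⁻¹ * ∑ h ∈ range H, z ^ h * a (T^[n + h] x)‖ ^ 2 ≤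
        ((N i : ℕ) : ℝ)⁻¹ * ∑ n ∈ range (N i),
          (S + (H : ℝ)⁻¹ * ∑ h ∈ range H, ‖r j (T^[n + h] x)‖) :=
      mul_le_mul_of_nonneg_left (Finset.sum_le_sum fun n _ => hw3 n) hNi
    have g2 : ((N i : ℕ) : ℝ)⁻¹ * ∑ n ∈ range (N i),
          (S + (H : ℝ)⁻¹ * ∑ h ∈ range H, ‖r j (T^[n + h] x)‖) =
        ((N i : ℕ) : ℝ)⁻¹ * ((N i : ℕ) * S) + ((N i : ℕ) : ℝ)⁻¹ * ∑ n ∈ range (N i),
          ((H : ℝ)⁻¹ * ∑ h ∈ range H, ‖r j (T^[n + h] x)‖) := by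
      rw [Finset.sum_add_distrib, mul_add]; simp
    have g3 : ((N i : ℕ) : ℝ)⁻¹ * ((N i : ℕ) * S) ≤ S := by
      rcases Nat.eq_zero_or_pos (N i) with h | h
      · rw [h]; simpa using hS0
      · have : (0 : ℝ) < (N i : ℕ) := by exact_mod_cast h
        rw [inv_mul_cancel_left₀ this.ne']
    have g4 := avg_avg_le (fun n => ‖r j (T^[n] x)‖) (1 + ∑ m, ‖e j m x‖)
      (fun n => norm_nonneg _) hrC H (N i) hHb
    rw [g2] at g1
    linarith
  have hblim : Tendsto (fun i => ((N i : ℕ) : ℝ)⁻¹ * ∑ n ∈ range (N i), ‖r j (T^[n] x)‖ +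
        (H : ℝ) * (1 + ∑ m, ‖e j m x‖) * ((N i : ℕ) : ℝ)⁻¹) atTop
        (𝓝 (‖p j x‖ + (H : ℝ) * (1 + ∑ m, ‖e j m x‖) * 0)) := by
    refine Tendsto.add ?_ ?_
    · have c3 := hK j
      simp only [h2] at c3
      have c4 := (c3.add_const (p j x)).norm
      rw [zero_add] at c4
      refine c4.congr fun i => ?_
      rw [sub_add_cancel]
      have e3 : ((N i : ℕ) : ℂ)⁻¹ * ∑ n ∈ range (N i), ((‖r j (T^[n] x)‖ : ℝ) : ℂ) =
          ((((N i : ℕ) : ℝ)⁻¹ * ∑ n ∈ range (N i), ‖r j (T^[n] x)‖ : ℝ) : ℂ) := by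
        push_cast; rfl
      rw [e3, Complex.norm_real, Real.norm_of_nonneg (by positivity)]
    · refine Tendsto.const_mul _ ?_
      exact tendsto_inv_atTop_zero.comp (tendsto_natCast_atTop_atTop.comp hN)
  rw [mul_zero, add_zero] at hblim
  filter_upwards [hblim.eventually (gt_mem_nhds hj)] with i hi
  have := hb i
  linarith

end V5helper1.NR
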