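import Pool.Agent.V5helper2.NR.Stm3
import Pool.Agent.V5helper91.NR.DTM

/-!
# Project NR, job SPC: the spectral measure of a sequence with finitely many frequencies removed
-/

set_option autoImplicit false
open Finset Filter Topology MeasureTheory AddCircle
open scoped ComplexConjugate

namespace V5helper1.NR

open Pool.Agent.Helper498.NCR Pool.Agent.V5helper2.CF Pool.Agent.V5helper2.NR

/-- coefficients of `rem` -/
noncomputable def uu (F : Finset Ci) (H : ℕ) (k : ℕ) : ℂ :=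
  (if k = 0 then 1 else 0) - (H : ℂ)⁻¹ * ∑ t ∈ F, (fourier (-1) t : ℂ) ^ k

lemma uu_sum (F : Finset Ci) (H : ℕ) (hH : 1 ≤ H) (c : ℕ → ℂ) :
    ∑ k ∈ range H, uu F H k * c k =
      c 0 - ∑ t ∈ F, (H : ℂ)⁻¹ * ∑ h ∈ range H, (fourier (-1) t : ℂ) ^ h * c h := by
  have e1 : ∑ k ∈ range H, uu F H k * c k =
      ∑ k ∈ range H, (if k = 0 then (1 : ℂ) else 0) * c k -
      ∑ k ∈ range H, (H : ℂ)⁻¹ * ((∑ t ∈ F, (fourier (-1) t : ℂ) ^ k) * c k) := by
    rw [← Finset.sum_sub_distrib]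
    refine Finset.sum_congr rfl fun k _ => ?_
    rw [uu]; ring
  have e2 : ∑ k ∈ range H, (if k = 0 then (1 : ℂ) else 0) * c k = c 0 := by
    rw [Finset.sum_eq_single 0]
    · simp
    · intro k _ hk; rw [if_neg hk, zero_mul]
    · intro h; exact absurd (mem_range.2 hH) h
  have e3 : ∑ k ∈ range H, (H : ℂ)⁻¹ * ((∑ t ∈ F, (fourier (-1) t : ℂ) ^ k) * c k) =
      ∑ t ∈ F, (H : ℂ)⁻¹ * ∑ h ∈ range H, (fourier (-1) t : ℂ) ^ h * c h := by
    have e4 : ∑ t ∈ F, (H : ℂ)⁻¹ * ∑ h ∈ range H, (fourier (-1) t : ℂ) ^ h * c h =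
        (H : ℂ)⁻¹ * ∑ h ∈ range H, ∑ t ∈ F, (fourier (-1) t : ℂ) ^ h * c h := by
      rw [← Finset.mul_sum, Finset.sum_comm]
    rw [e4, ← Finset.mul_sum]
    congr 1
    refine Finset.sum_congr rfl fun k _ => ?_
    rw [Finset.sum_mul]
  rw [e1, e2, e3]

lemma rem_eq (F : Finset Ci) (H : ℕ) (hH : 1 ≤ H) (a : ℕ → ℂ) (n : ℕ) :
    rem F H a n = ∑ k ∈ range H, uu F H k * a (n + k) := by
  rw [uu_sum F H hH (fun k => a (n + k))]
  rfl

lemma wgt_eq (F : Finset Ci) (H : ℕ) (hH : 1 ≤ H) (s : Ci) :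
    ((wgt F H s : ℝ) : ℂ) = ∑ k ∈ range H, ∑ k' ∈ range H,
      (uu F H k * conj (uu F H k')) * fourier ((k : ℤ) - k') s := by
  have h1 : 1 - ∑ t ∈ F, (H : ℂ)⁻¹ * ∑ h ∈ range H,
      (fourier (-1) t : ℂ) ^ h * fourier (h : ℤ) s =
      ∑ k ∈ range H, uu F H k * fourier (k : ℤ) s := by
    rw [uu_sum F H hH (fun k => fourier (k : ℤ) s)]
    simp
  rw [wgt, h1, ← Complex.normSq_eq_norm_sq, ← Complex.mul_conj, map_sum, Finset.sum_mul_sum]
  refine Finset.sum_congr rfl fun k _ => Finset.sum_congr rfl fun k' _ => ?_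
  rw [map_mul, sub_eq_add_neg, fourier_add, ← fourier_neg (n := (k' : ℤ))]
  ring

lemma wgt_cont (F : Finset Ci) (H : ℕ) : Continuous (wgt F H) := by
  have h1 : Continuous fun s : Ci => 1 - ∑ t ∈ F, (H : ℂ)⁻¹ * ∑ h ∈ range H,
      (fourier (-1) t : ℂ) ^ h * fourier (h : ℤ) s :=
    continuous_const.sub (continuous_finsetSum _ fun t _ => continuous_const.mul
      (continuous_finsetSum _ fun h _ => continuous_const.mul (fourier (h : ℤ)).continuous))
  exact h1.norm.pow 2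

lemma four_int (ρ : Measure Ci) [IsFiniteMeasure ρ] (m : ℤ) :
    Integrable (fun t : Ci => fourier m t) ρ :=
  (fourier m).continuous.integrable_of_hasCompactSupport (HasCompactSupport.of_compactSpace _)

lemma gam_int (ρ : Measure Ci) (γ : ℕ → ℂ) (hR : Rep ρ γ) (h h' : ℕ) :
    Gam γ h h' = ∫ s, fourier ((h : ℤ) - h') s ∂ρ := by
  have h1 := hR h h'
  have h2 := congrArg conj h1
  rw [Complex.conj_conj, ← integral_conj] at h2
  rw [h2]
  refine integral_congr_ae (Eventually.of_forall fun s => ?_)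
  simp only
  rw [← fourier_neg, neg_sub]

lemma corr_lim {a : ℕ → ℂ} (ha : ∀ n, ‖a n‖ ≤ 1) {γ : ℕ → ℂ} {M : ℕ → ℕ}
    (hM : Tendsto M atTop atTop) (hγ : Corr a M γ) (F : Finset Ci) (H : ℕ) (hH : 1 ≤ H) (m : ℕ) :
    Tendsto (fun i => ((M i : ℕ) : ℂ)⁻¹ *
      ∑ j ∈ range (M i), rem F H a (j + m) * conj (rem F H a j)) atTop
      (𝓝 (∑ k ∈ range H, ∑ k' ∈ range H, uu F H k * conj (uu F H k') * Gam γ (m + k) k')) := by
  have h1 : Tendsto (fun i => ∑ k ∈ range H, ∑ k' ∈ range H, uu F H k * conj (uu F H k') *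
      (((M i : ℕ) : ℂ)⁻¹ * ∑ j ∈ range (M i), a (j + (m + k)) * conj (a (j + k')))) atTop
      (𝓝 (∑ k ∈ range H, ∑ k' ∈ range H, uu F H k * conj (uu F H k') * Gam γ (m + k) k')) :=
    tendsto_finsetSum _ fun k _ => tendsto_finsetSum _ fun k' _ =>
      (Pool.Agent.V5helper91.NR.corr_shift ha hM hγ (m + k) k').const_mul _
  refine h1.congr fun i => ?_
  have h2 : ∀ j, rem F H a (j + m) * conj (rem F H a j) = ∑ k ∈ range H, ∑ k' ∈ range H,
      uu F H k * conj (uu F H k') * (a (j + (m + k)) * conj (a (j + k'))) := by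
    intro j
    rw [rem_eq F H hH, rem_eq F H hH, map_sum, Finset.sum_mul_sum]
    refine Finset.sum_congr rfl fun k _ => Finset.sum_congr rfl fun k' _ => ?_
    rw [map_mul, add_assoc]; ring
  rw [Finset.sum_congr rfl fun j _ => h2 j]
  have e1 : ∑ j ∈ range (M i), ∑ k ∈ range H, ∑ k' ∈ range H,
      uu F H k * conj (uu F H k') * (a (j + (m + k)) * conj (a (j + k'))) =
      ∑ k ∈ range H, ∑ k' ∈ range H, ∑ j ∈ range (M i),
      uu F H k * conj (uu F H k') * (a (j + (m + k)) * conj (a (j + k'))) :=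
    Finset.sum_comm.trans (Finset.sum_congr rfl fun h _ => Finset.sum_comm)
  rw [e1, Finset.mul_sum]
  refine Finset.sum_congr rfl fun k _ => ?_
  rw [Finset.mul_sum]
  refine Finset.sum_congr rfl fun k' _ => ?_
  rw [← Finset.mul_sum]
  ring

lemma lim_val (ρ : Measure Ci) [IsFiniteMeasure ρ] (γ : ℕ → ℂ) (hR : Rep ρ γ) (F : Finset Ci)
    (H : ℕ) (hH : 1 ≤ H) (m : ℕ) :
    ∑ k ∈ range H, ∑ k' ∈ range H, uu F H k * conj (uu F H k') * Gam γ (m + k) k' =
      ∫ s, fourier (m : ℤ) s * ((wgt F H s : ℝ) : ℂ) ∂ρ := by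
  have h3 : ∀ s, fourier (m : ℤ) s * ((wgt F H s : ℝ) : ℂ) =
      ∑ k ∈ range H, ∑ k' ∈ range H,
      (uu F H k * conj (uu F H k')) * fourier (((m + k : ℕ) : ℤ) - k') s := by
    intro s
    rw [wgt_eq F H hH, Finset.mul_sum]
    refine Finset.sum_congr rfl fun k _ => ?_
    rw [Finset.mul_sum]
    refine Finset.sum_congr rfl fun k' _ => ?_
    have : ((m + k : ℕ) : ℤ) - k' = (m : ℤ) + ((k : ℤ) - k') := by push_cast; ring
    rw [this, fourier_add]
    ring
  simp_rw [h3]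
  rw [integral_finsetSum _ fun j _ =>
    integrable_finsetSum _ fun j' _ => (four_int ρ _).const_mul _]
  refine Finset.sum_congr rfl fun k _ => ?_
  rw [integral_finsetSum _ fun j' _ => (four_int ρ _).const_mul _]
  refine Finset.sum_congr rfl fun k' _ => ?_
  rw [integral_const_mul, gam_int ρ γ hR]

theorem t_SPC : S_SPC := by
  intro a ha γ M hM hγ ρ hρ hR F H hH
  refine ⟨fun m => ∫ s, fourier (m : ℤ) s * ((wgt F H s : ℝ) : ℂ) ∂ρ, fun m => ?_, ?_⟩
  · have h1 := corr_lim ha hM hγ F H hH m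
    rw [lim_val ρ γ hR F H hH m] at h1
    exact h1
  · have hw0 : ∀ s, 0 ≤ wgt F H s := fun s => by unfold wgt; positivity
    have hmeas : Measurable fun s => ENNReal.ofReal (wgt F H s) :=
      (wgt_cont F H).measurable.ennreal_ofReal
    have key : ∀ m : ℤ, ∫ s, fourier m s ∂(ρ.withDensity fun s => ENNReal.ofReal (wgt F H s)) =
        ∫ s, fourier m s * ((wgt F H s : ℝ) : ℂ) ∂ρ := by
      intro m
      rw [integral_withDensity_eq_integral_toReal_smul hmeas
        (Eventually.of_forall fun s => ENNReal.ofReal_lt_top)]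
      refine integral_congr_ae (Eventually.of_forall fun s => ?_)
      simp only
      rw [ENNReal.toReal_ofReal (hw0 s), Complex.real_smul, mul_comm]
    intro n m
    rw [key]
    unfold Gam
    split_ifs with h
    · rw [← integral_conj]
      refine integral_congr_ae (Eventually.of_forall fun s => ?_)
      simp only
      rw [map_mul, Complex.conj_ofReal, ← fourier_neg]
      congr 3
      omega
    · rw [Complex.conj_conj]
      have : ((m - n : ℕ) : ℤ) = (m : ℤ) - n := by omega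
      beta_reduce
      rw [this]

end V5helper1.NR
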